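import Mathlib

/-!
# Project GN, lemma C (helper275): integers composed of the primes dividing `P`
-/

set_option autoImplicit false

namespace Pool.Agent.Y275.GN

open Finset

/-- The function `n ↦ n ^ (-σ)`. -/
noncomputable def pw (σ : ℝ) : ℕ →* ℝ where
  toFun n := (n : ℝ) ^ (-σ)
  map_one' := by simp
  map_mul' a b := by
    push_cast
    exact Real.mul_rpow (Nat.cast_nonneg _) (Nat.cast_nonneg _)

theorem pw_apply (σ : ℝ) (n : ℕ) : pw σ n = (n : ℝ) ^ (-σ) := rfl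

theorem pw_nonneg (σ : ℝ) (n : ℕ) : 0 ≤ pw σ n := Real.rpow_nonneg (Nat.cast_nonneg _) _

theorem pw_lt (σ : ℝ) (hσ : 0 < σ) {n : ℕ} (hn : 2 ≤ n) : pw σ n ≤ (2 : ℝ) ^ (-σ) := by
  rw [pw_apply]
  exact Real.rpow_le_rpow_of_nonpos (by norm_num) (by exact_mod_cast hn) (by linarith)

theorem two_lt (σ : ℝ) (hσ : 0 < σ) : (2 : ℝ) ^ (-σ) < 1 :=
  Real.rpow_lt_one_of_one_lt_of_neg (by norm_num) (by linarith)

/-- Rankin's trick. -/
theorem rankin (σ : ℝ) (hσ : 0 < σ) (Y P : ℕ) (hP : P ≠ 0) (H : Finset ℕ)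
    (hH : ∀ h ∈ H, 1 ≤ h ∧ h ≤ Y ∧ ∀ p : ℕ, p.Prime → p ∣ h → p ∣ P) :
    (H.card : ℝ) * (Y : ℝ) ^ (-σ) ≤ ((1 - (2 : ℝ) ^ (-σ))⁻¹) ^ P.primeFactors.card := by
  have h1 : ∀ {p : ℕ}, p.Prime → ‖pw σ p‖ < 1 := by
    intro p hp
    rw [Real.norm_of_nonneg (pw_nonneg σ p)]
    exact (pw_lt σ hσ hp.two_le).trans_lt (two_lt σ hσ)
  obtain ⟨-, h2⟩ :=
    EulerProduct.summable_and_hasSum_factoredNumbers_prod_filter_prime_geometric h1 P.primeFactors
  have h3 : (P.primeFactors.filter fun p => p.Prime) = P.primeFactors :=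
    Finset.filter_true_of_mem fun p hp => Nat.prime_of_mem_primeFactors hp
  rw [h3] at h2
  have hmem : ∀ h ∈ H, h ∈ Nat.factoredNumbers P.primeFactors := by
    intro h hh
    obtain ⟨a, b, c⟩ := hH h hh
    rw [Nat.mem_factoredNumbers']
    intro p hp hpd
    exact Nat.mem_primeFactors.2 ⟨hp, c p hp hpd, hP⟩
  -- the finite sum
  have h4 : ∑ h ∈ H, pw σ h ≤ ∏ p ∈ P.primeFactors, (1 - pw σ p)⁻¹ := by
    have e : ∑ h ∈ H, pw σ h = ∑ x ∈ H.attach.map ⟨fun h : {x // x ∈ H} =>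
        (⟨h.1, hmem h.1 h.2⟩ : Nat.factoredNumbers P.primeFactors), fun a b hab =>
          Subtype.ext (congrArg (fun y : Nat.factoredNumbers P.primeFactors => (y : ℕ)) hab)⟩,
        pw σ x := by
      rw [Finset.sum_map, ← Finset.sum_attach]
      rfl
    rw [e]
    exact sum_le_hasSum _ (fun x _ => pw_nonneg σ x) h2
  have h5 : (H.card : ℝ) * (Y : ℝ) ^ (-σ) ≤ ∑ h ∈ H, pw σ h := by
    rw [← nsmul_eq_mul]
    refine Finset.card_nsmul_le_sum _ _ _ fun h hh => ?_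
    obtain ⟨a, b, -⟩ := hH h hh
    rw [pw_apply]
    exact Real.rpow_le_rpow_of_nonpos (by exact_mod_cast a) (by exact_mod_cast b) (by linarith)
  refine h5.trans (h4.trans ?_)
  rw [← Finset.prod_const]
  refine Finset.prod_le_prod (fun p hp => ?_) fun p hp => ?_
  · have := pw_lt σ hσ (Nat.prime_of_mem_primeFactors hp).two_le
    have := two_lt σ hσ
    exact inv_nonneg.2 (by linarith)
  · have h6 := pw_lt σ hσ (Nat.prime_of_mem_primeFactors hp).two_le
    have h7 := two_lt σ hσ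
    exact inv_anti₀ (by linarith) (by linarith)

/-- The number of the large prime factors. -/
theorem big_primes (B P : ℕ) (hP : P ≠ 0) :
    B ^ (P.primeFactors.filter fun p => B < p).card ≤ P := by
  rw [← Finset.prod_const]
  calc ∏ _p ∈ P.primeFactors.filter (fun p => B < p), B
      ≤ ∏ p ∈ P.primeFactors.filter (fun p => B < p), p :=
        Finset.prod_le_prod' fun p hp => (Finset.mem_filter.1 hp).2.le
    _ ≤ ∏ p ∈ P.primeFactors, p :=
        Finset.prod_le_prod_of_subset_of_one_le' (Finset.filter_subset _ _)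
          fun p hp _ => (Nat.prime_of_mem_primeFactors hp).one_lt.le
    _ ≤ P := Nat.le_of_dvd (Nat.pos_of_ne_zero hP) (Nat.prod_primeFactors_dvd P)

theorem small_primes (B P : ℕ) :
    (P.primeFactors.filter fun p => ¬ B < p).card ≤ B := by
  have : (P.primeFactors.filter fun p => ¬ B < p) ⊆ Finset.Icc 1 B := by
    intro p hp
    rw [Finset.mem_filter] at hp
    rw [Finset.mem_Icc]
    exact ⟨(Nat.prime_of_mem_primeFactors hp.1).one_lt.le, by omega⟩
  simpa using Finset.card_le_card this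

/-- **Lemma C.** -/
theorem t_C (N m : ℕ) : ∃ Y0 : ℕ, ∀ Y : ℕ, Y0 ≤ Y → ∀ P : ℕ, P ≠ 0 → P ≤ Y ^ N →
    ∀ H : Finset ℕ, (∀ h ∈ H, 1 ≤ h ∧ h ≤ Y ∧ ∀ p : ℕ, p.Prime → p ∣ h → p ∣ P) →
      H.card ^ m ≤ Y := by
  rcases Nat.eq_zero_or_pos m with rfl | hm
  · exact ⟨1, fun Y hY P _ _ H _ => by simpa using hY⟩
  set σ : ℝ := 1 / (4 * m) with hσd
  have hm' : (0 : ℝ) < m := by exact_mod_cast hm
  have hσ : 0 < σ := by positivity
  set A : ℝ := (1 - (2 : ℝ) ^ (-σ))⁻¹ with hA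
  have hA1 : 1 ≤ A := by
    have h1 := two_lt σ hσ
    have h2 : (0 : ℝ) ≤ (2 : ℝ) ^ (-σ) := Real.rpow_nonneg (by norm_num) _
    rw [hA]
    exact (one_le_inv₀ (by linarith)).2 (by linarith)
  obtain ⟨B, hB⟩ := exists_nat_ge (A ^ (4 * m * (N + 1)))
  obtain ⟨Y1, hY1⟩ := exists_nat_ge (A ^ (4 * m * B))
  refine ⟨Y1 + 1, fun Y hY P hP hPY H hH => ?_⟩
  have hYpos : 1 ≤ Y := by omega
  have hYr : (1 : ℝ) ≤ Y := by exact_mod_cast hYpos
  have hYA : A ^ (4 * m * B) ≤ (Y : ℝ) := hY1.trans (by exact_mod_cast (by omega : Y1 ≤ Y))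
  have h1 := rankin σ hσ Y P hP H hH
  rw [← hA] at h1
  -- the number of prime factors
  have hsplit : P.primeFactors.card = (P.primeFactors.filter fun p => B < p).card +
      (P.primeFactors.filter fun p => ¬ B < p).card :=
    (Finset.card_filter_add_card_filter_not _).symm
  set a := (P.primeFactors.filter fun p => B < p).card with ha
  set b := (P.primeFactors.filter fun p => ¬ B < p).card with hb
  have hbB : b ≤ B := small_primes B P
  have h2 : (A ^ a) ^ (4 * m) ≤ (Y : ℝ) := by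
    have h3 : ((A ^ a) ^ (4 * m)) ^ (N + 1) ≤ (Y : ℝ) ^ (N + 1) := by
      calc ((A ^ a) ^ (4 * m)) ^ (N + 1) = (A ^ (4 * m * (N + 1))) ^ a := by
            rw [← pow_mul, ← pow_mul, ← pow_mul]
            congr 1
            ring
        _ ≤ (B : ℝ) ^ a := pow_le_pow_left₀ (by positivity) hB a
        _ ≤ (P : ℝ) := by exact_mod_cast big_primes B P hP
        _ ≤ (Y : ℝ) ^ N := by exact_mod_cast hPY
        _ ≤ (Y : ℝ) ^ (N + 1) := pow_le_pow_right₀ hYr (by omega)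
    exact le_of_pow_le_pow_left₀ (by omega) (by positivity) h3
  have h4 : (A ^ b) ^ (4 * m) ≤ (Y : ℝ) := by
    calc (A ^ b) ^ (4 * m) = A ^ (4 * m * b) := by rw [← pow_mul]; congr 1; ring
      _ ≤ A ^ (4 * m * B) := pow_le_pow_right₀ hA1 (Nat.mul_le_mul_left _ hbB)
      _ ≤ Y := hYA
  have h5 : ((Y : ℝ) ^ σ) ^ (4 * m) = Y := by
    rw [← Real.rpow_natCast, ← Real.rpow_mul (by positivity)]
    push_cast
    rw [hσd, one_div, inv_mul_cancel₀ (by positivity), Real.rpow_one]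
  have h6 : (H.card : ℝ) ≤ (Y : ℝ) ^ σ * (A ^ a * A ^ b) := by
    rw [← pow_add, ← hsplit]
    have h7 : (0 : ℝ) < (Y : ℝ) ^ σ := Real.rpow_pos_of_pos (by linarith) _
    rw [Real.rpow_neg (by positivity)] at h1
    calc (H.card : ℝ) = (Y : ℝ) ^ σ * (H.card * ((Y : ℝ) ^ σ)⁻¹) := by field_simp
      _ ≤ (Y : ℝ) ^ σ * A ^ P.primeFactors.card := by gcongr
  have h8 : ((H.card ^ m : ℕ) : ℝ) ^ 4 ≤ (Y : ℝ) ^ 4 := by
    calc ((H.card ^ m : ℕ) : ℝ) ^ 4 = (H.card : ℝ) ^ (4 * m) := by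
          push_cast
          rw [← pow_mul, mul_comm]
      _ ≤ ((Y : ℝ) ^ σ * (A ^ a * A ^ b)) ^ (4 * m) := by gcongr
      _ = ((Y : ℝ) ^ σ) ^ (4 * m) * ((A ^ a) ^ (4 * m) * (A ^ b) ^ (4 * m)) := by
          rw [mul_pow, mul_pow]
      _ ≤ Y * (Y * Y) := by
          rw [h5]
          gcongr
      _ ≤ (Y : ℝ) ^ 4 := by
          have : (Y : ℝ) * (Y * Y) = Y ^ 3 := by ring
          rw [this]
          exact pow_le_pow_right₀ hYr (by norm_num)
  have h9 := le_of_pow_le_pow_left₀ (by norm_num) (by positivity) h8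
  exact_mod_cast h9

end Pool.Agent.Y275.GN
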